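import Pool.Agent.H64.CG.Mor

/-!
# Morrey's problem for quadratic functions of the Cauchy-Green tensor plus functions of the determinant

`W(F) = B(FᵀF, FᵀF) + Q(F) + l(F) + f(det F)`, or `W(F) = B(FFᵀ, FFᵀ) + Q(F) + l(F) + f(det F)`, where
`B` is any bilinear form on the real `2 × 2` matrices (so that the first term is any quadratic form
of the Cauchy-Green tensor `FᵀF`, for instance the quartic part of a Saint Venant-Kirchhoff energy
of an arbitrary anisotropic material), `Q` any quadratic form, `l` any linear form and `f` any real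
function.  No isotropy and no regularity of `f` is assumed.  The energy may be defined on all
matrices (`I = ℝ` below) or only on those with positive determinant (`I = (0, ∞)`), or with
determinant above a negative number.

Rank-one convexity and polyconvexity are equivalent for these energies, and imply quasiconvexity.
They are equivalent to an explicit criterion on `B`, `Q`, `f`, and to the existence of a
decomposition `W(F) = g(F) + c det F + h(det F)` with `g` convex and `h = f - α x²` convex.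

Proof.  Let `u, v` be the rows of `F`; `FᵀF = u ⊗ u + v ⊗ v`.  (1) On the rank-one lines with the
rows `(-x/s) n, s v`, `v ∧ n = 1`, the determinant is `x`, and for `s → ∞` the energy is
`f(x) + 2 B(v ⊗ v, n ⊗ n) x²` up to an affine function of `x`.  (2) On lines with rows
`u/s ± s n, s v`, `u ∧ v = 1`, `s → 0`, the second difference gives the convexity of the quartic
form.  (3) With `α` the supremum of `-2 B(v ⊗ v, n ⊗ n)`, `v ∧ n = 1`, the form `B(C,C) + α det C` is
nonnegative on all symmetric matrices and its polar form is nonnegative on pairs of positive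
semidefinite ones, so that it is a convex function of `F`; `det C = (det F)²`.  (4) S-lemma for `Q`.
-/

set_option autoImplicit false

namespace Pool.Agent.Results.MP_515557_an.CauchyGreenQuadratic

open MeasureTheory Matrix

/-- real `2 × 2` matrices -/
abbrev M := Matrix (Fin 2) (Fin 2) ℝ

/-- the matrix `F₀ + Dϑ(x)` -/
noncomputable def Grad (F₀ : M) (ϑ : (Fin 2 → ℝ) → (Fin 2 → ℝ)) (x : Fin 2 → ℝ) : M :=
  F₀ + LinearMap.toMatrix'
    ((fderiv ℝ ϑ x : (Fin 2 → ℝ) →L[ℝ] (Fin 2 → ℝ)) : (Fin 2 → ℝ) →ₗ[ℝ] (Fin 2 → ℝ))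

/-- convexity along the segments in rank-one directions between matrices with determinant in `I`
(for `I = ℝ`: rank-one convexity) -/
def RankOneConvexOn (I : Set ℝ) (W : M → ℝ) : Prop :=
  ∀ F H : M, H.rank = 1 → F.det ∈ I → (F + H).det ∈ I → ∀ t : ℝ, 0 ≤ t → t ≤ 1 →
    W ((1 - t) • F + t • (F + H)) ≤ (1 - t) * W F + t * W (F + H)

/-- on the matrices with determinant in `I`, `W` is a convex function of the matrix and of its
determinant -/
def PolyconvexOn (I : Set ℝ) (W : M → ℝ) : Prop :=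
  ∃ P : M × ℝ → ℝ, ConvexOn ℝ {p : M × ℝ | p.2 ∈ I} P ∧ ∀ F : M, F.det ∈ I → W F = P (F, F.det)

/-- Morrey's quasiconvexity, for functions on all matrices -/
def Quasiconvex (W : M → ℝ) : Prop :=
  ∀ F₀ : M, ∀ Ω : Set (Fin 2 → ℝ), IsOpen Ω → Bornology.IsBounded Ω →
    ∀ ϑ : (Fin 2 → ℝ) → (Fin 2 → ℝ), (∃ K, LipschitzWith K ϑ) → (∀ x, x ∉ Ω → ϑ x = 0) →
      W F₀ * (volume Ω).toReal ≤ ∫ x in Ω, W (Grad F₀ ϑ x)

/-- the Morrey inequality at the matrices `F₀` with determinant in `I`, for Lipschitz maps `ϑ`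
vanishing off a bounded open set `Ω` such that `det (F₀ + Dϑ) ∈ I` almost everywhere on `Ω` and the
positive part of `W(F₀ + Dϑ)` is integrable on `Ω` -/
def QuasiconvexOn (I : Set ℝ) (W : M → ℝ) : Prop :=
  ∀ F₀ : M, F₀.det ∈ I → ∀ Ω : Set (Fin 2 → ℝ), IsOpen Ω → Bornology.IsBounded Ω →
    ∀ ϑ : (Fin 2 → ℝ) → (Fin 2 → ℝ), (∃ K, LipschitzWith K ϑ) → (∀ x, x ∉ Ω → ϑ x = 0) →
      (∀ᵐ x ∂(volume.restrict Ω), (Grad F₀ ϑ x).det ∈ I) →
      ∫⁻ x in Ω, ENNReal.ofReal (W (Grad F₀ ϑ x)) ≠ ⊤ →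
      IntegrableOn (fun x => W (Grad F₀ ϑ x)) Ω ∧
        W F₀ * (volume Ω).toReal ≤ ∫ x in Ω, W (Grad F₀ ϑ x)

/-- The criterion.  (1) The quartic form `x ↦ B(x ⊗ x, x ⊗ x)` on the plane is convex: half of its
second derivative at `u` in the direction `n` is the expression in `quartic`.  (2) `Q` is
nonnegative on the singular matrices.  (3) For all `v`, `n` with `v ∧ n = 1` the function
`f(x) + 2 Bˢ(v ⊗ v, n ⊗ n) x²` is convex on `I`, `Bˢ` the symmetric part of `B`. -/
structure Criterion (I : Set ℝ) (B : M →ₗ[ℝ] M →ₗ[ℝ] ℝ) (Q : QuadraticForm ℝ M) (f : ℝ → ℝ) :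
    Prop where
  quartic : ∀ u n : Fin 2 → ℝ,
    0 ≤ B (vecMulVec u u) (vecMulVec n n) + B (vecMulVec n n) (vecMulVec u u)
      + B (vecMulVec u n + vecMulVec n u) (vecMulVec u n + vecMulVec n u)
  quadratic : ∀ H : M, H.det = 0 → 0 ≤ Q H
  volumetric : ∀ v n : Fin 2 → ℝ, v 0 * n 1 - v 1 * n 0 = 1 → ConvexOn ℝ I (fun x => f x
    + (B (vecMulVec v v) (vecMulVec n n) + B (vecMulVec n n) (vecMulVec v v)) * x ^ 2)

/-- `W(F) = g(F) + c det F + (f - α x²)(det F)` on the matrices with determinant in `I`, with a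
convex function `g` of the matrix and a convex function `f - α x²` of the determinant -/
def Decomposes (I : Set ℝ) (f : ℝ → ℝ) (W : M → ℝ) : Prop :=
  ∃ (g : M → ℝ) (c α : ℝ), ConvexOn ℝ Set.univ g ∧ ConvexOn ℝ I (fun x => f x - α * x ^ 2) ∧
    ∀ F : M, F.det ∈ I → W F = g F + c * F.det + (f F.det - α * F.det ^ 2)

theorem seg_iff (I : Set ℝ) (W : M → ℝ) :
    RankOneConvexOn I W ↔ Pool.Agent.H64.CG.SegI I W := by
  have e : ∀ (F H : M) (t : ℝ), (1 - t) • F + t • (F + H) = F + t • H := by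
    intro F H t
    rw [smul_add, sub_smul, one_smul]; abel
  constructor
  · intro h F H hH hF hFH t h0 h1
    by_cases hH0 : H = 0
    · subst hH0
      simp only [smul_zero, add_zero]
      linarith
    · have h := h F H (Pool.Agent.Helper188.Morrey.rank_eq_one_of_det hH0 hH) hF hFH t h0 h1
      rwa [e] at h
  · intro h F H hH hF hFH t h0 h1
    have := h F H (Pool.Agent.Helper188.Morrey.det_eq_zero_of_rank hH.le) hF hFH t h0 h1
    rwa [e]

theorem crit_iff (I : Set ℝ) (B : M →ₗ[ℝ] M →ₗ[ℝ] ℝ) (Q : QuadraticForm ℝ M) (f : ℝ → ℝ) :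
    Criterion I B Q f ↔ Pool.Agent.H64.CG.CritB I B Q f :=
  ⟨fun h => ⟨h.quartic, h.quadratic, h.volumetric⟩, fun h => ⟨h.qu, h.tt, h.ff⟩⟩

/-- **Morrey's problem for quadratic functions of the Cauchy-Green tensor plus functions of the
determinant.**  `I = ℝ` or `I = (c, ∞)` with `c ≤ 0` is the set of the admissible determinants. -/
theorem result (I : Set ℝ) (hI : IsOpen I) (hI' : Convex ℝ I) (hpos : Set.Ioi 0 ⊆ I)
    (B : M →ₗ[ℝ] M →ₗ[ℝ] ℝ) (Q : QuadraticForm ℝ M) (l : M →ₗ[ℝ] ℝ) (f : ℝ → ℝ) (W : M → ℝ)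
    (hW : (∀ F : M, F.det ∈ I → W F = B (Fᵀ * F) (Fᵀ * F) + Q F + l F + f F.det) ∨
      (∀ F : M, F.det ∈ I → W F = B (F * Fᵀ) (F * Fᵀ) + Q F + l F + f F.det)) :
    [RankOneConvexOn I W, Criterion I B Q f, Decomposes I f W, PolyconvexOn I W].TFAE ∧
      (RankOneConvexOn I W → QuasiconvexOn I W) ∧
      (I = Set.univ → RankOneConvexOn I W → Quasiconvex W) := by
  obtain ⟨h1, h2, h3, h4, h5⟩ : (Pool.Agent.H64.CG.SegI I W → Pool.Agent.H64.CG.CritB I B Q f) ∧
      (Pool.Agent.H64.CG.CritB I B Q f → Pool.Agent.H64.CG.DecI I f W) ∧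
      (Pool.Agent.H64.CG.DecI I f W → Pool.Agent.H64.CG.PcI I W) ∧
      (Pool.Agent.H64.CG.PcI I W → Pool.Agent.H64.CG.SegI I W) ∧
      (Pool.Agent.H64.CG.CritB I B Q f → ∀ F₀ : M, F₀.det ∈ I →
        Pool.Agent.W5h27.MO.NlAt W I F₀) := by
    rcases hW with hW | hW
    · exact Pool.Agent.H64.CG.main_left hI hI' hpos B Q l f W hW
    · exact Pool.Agent.H64.CG.main_right hI hI' hpos B Q l f W hW
  refine ⟨?_, fun h => ?_, fun hu h => ?_⟩
  · rw [seg_iff, crit_iff]
    tfae_have 1 → 2 := h1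
    tfae_have 2 → 3 := h2
    tfae_have 3 → 4 := h3
    tfae_have 4 → 1 := h4
    tfae_finish
  · rw [seg_iff] at h
    intro F₀ hF₀ Ω hΩ hb ϑ hϑ h0 hdet hfin
    exact Pool.Agent.H64.CG.morrey_on hI (h5 (h1 h)) hF₀ hΩ hb hϑ h0 hdet hfin
  · subst hu
    have hc : Continuous W := Pool.Agent.Helper188.Morrey.RankOneConvex.continuous
      (fun F H hH t h0 h1 => h F H hH (Set.mem_univ _) (Set.mem_univ _) t h0 h1)
    rw [seg_iff] at h
    intro F₀ Ω hΩ hb ϑ hϑ h0
    exact Pool.Agent.W5h27.MO.morrey_of_nl hc (h5 (h1 h) F₀ (Set.mem_univ _)) hΩ hb hϑ h0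

end Pool.Agent.Results.MP_515557_an.CauchyGreenQuadratic
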