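import Pool.Agent.H73.MC.Fin

/-!
# Functions of one column and the determinant plus a quadratic polynomial

Morrey's question for 2 by 2 matrices, for the class `W(F) = Φ(F n, det F) + Q(F) + L(F)`: `Φ` an
arbitrary function of three real variables, `n` an arbitrary vector, `Q` a quadratic form, `L` a
linear form.  Rank-one convexity implies quasiconvexity.  The same for `Φ(Fᵀ m, det F)`.

Proof.  Let `n = e₀`, `F = (p | q)`.  For independent `x`, `y` and arbitrary `δ₀`, `δ₁`, `β` there is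
`g` with `det (x | g) = δ₀`, `det (y | g + β (y - x)) = δ₁`; rank-one convexity on this segment gives
a convexity inequality for `Φ` in all three variables, with the error `Q(c | β c)`, `c = y - x`.
Hence `Φ(p, ·)` is convex; with a subgradient `σ` at `(p₀, δ₀)` the function
`ψ(p) = inf_δ (Φ(p, δ) - σ δ)` is finite off `p = 0`, extends to `p = 0`, and
`ψ(F e₀) + Q(F) + σ det F` is rank-one convex and supports `W` at `F₀`.  Functions of one column plus
a quadratic form are known to be quasiconvex when they are rank-one convex (heat flow with an exact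
form).
-/

set_option autoImplicit false

namespace Pool.Agent.Results.MP_515557_an.ColumnAndDeterminant

/-- rank-one convexity -/
def RankOneConvex (W : Matrix (Fin 2) (Fin 2) ℝ → ℝ) : Prop :=
  ∀ F H : Matrix (Fin 2) (Fin 2) ℝ, H.rank = 1 → ∀ t : ℝ, 0 ≤ t → t ≤ 1 →
    W ((1 - t) • F + t • (F + H)) ≤ (1 - t) * W F + t * W (F + H)

/-- quasiconvexity (Morrey) -/
def Quasiconvex (W : Matrix (Fin 2) (Fin 2) ℝ → ℝ) : Prop :=
  ∀ F₀ : Matrix (Fin 2) (Fin 2) ℝ, ∀ Ω : Set (Fin 2 → ℝ),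
    IsOpen Ω → Bornology.IsBounded Ω →
    ∀ ϑ : (Fin 2 → ℝ) → (Fin 2 → ℝ), (∃ K, LipschitzWith K ϑ) →
      (∀ x, x ∉ Ω → ϑ x = 0) →
      W F₀ * (MeasureTheory.volume Ω).toReal ≤
        ∫ x in Ω, W (F₀ + LinearMap.toMatrix'
          ((fderiv ℝ ϑ x : (Fin 2 → ℝ) →L[ℝ] (Fin 2 → ℝ)) :
            (Fin 2 → ℝ) →ₗ[ℝ] (Fin 2 → ℝ)))

/-- `Φ(F n, det F) + Q(F) + L(F)` -/
noncomputable def columnFun (Φ : (Fin 2 → ℝ) → ℝ → ℝ) (n : Fin 2 → ℝ)
    (Q : QuadraticForm ℝ (Matrix (Fin 2) (Fin 2) ℝ)) (L : Matrix (Fin 2) (Fin 2) ℝ →ₗ[ℝ] ℝ)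
    (F : Matrix (Fin 2) (Fin 2) ℝ) : ℝ :=
  Φ (F.mulVec n) F.det + Q F + L F

/-- `Φ(Fᵀ m, det F) + Q(F) + L(F)` -/
noncomputable def rowFun (Φ : (Fin 2 → ℝ) → ℝ → ℝ) (m : Fin 2 → ℝ)
    (Q : QuadraticForm ℝ (Matrix (Fin 2) (Fin 2) ℝ)) (L : Matrix (Fin 2) (Fin 2) ℝ →ₗ[ℝ] ℝ)
    (F : Matrix (Fin 2) (Fin 2) ℝ) : ℝ :=
  Φ (F.transpose.mulVec m) F.det + Q F + L F

/-- Rank-one convexity implies quasiconvexity for all functions of one column (or one row) and the
determinant plus a quadratic polynomial. -/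
theorem result (Φ : (Fin 2 → ℝ) → ℝ → ℝ) (v : Fin 2 → ℝ)
    (Q : QuadraticForm ℝ (Matrix (Fin 2) (Fin 2) ℝ))
    (L : Matrix (Fin 2) (Fin 2) ℝ →ₗ[ℝ] ℝ) :
    (RankOneConvex (columnFun Φ v Q L) → Quasiconvex (columnFun Φ v Q L)) ∧
      (RankOneConvex (rowFun Φ v Q L) → Quasiconvex (rowFun Φ v Q L)) := by
  refine ⟨fun h => Pool.Agent.H73.MC.main_col Φ v Q L h, fun h => ?_⟩
  have e : rowFun Φ v Q L = fun F => Φ (Matrix.vecMul v F) F.det + Q F + L F := by
    funext F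
    rw [rowFun, Matrix.mulVec_transpose]
  rw [e] at h ⊢
  exact Pool.Agent.H73.MC.main_row Φ v Q L h

end Pool.Agent.Results.MP_515557_an.ColumnAndDeterminant
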