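import Pool.Agent.H73.MC.Peel5

/-!
# One arbitrary column plus independent parts

Morrey's question for 2 by 2 matrices, for `W(F) = ψ(F v) + ∑ᵢ χᵢ(Tᵢ F) + Q(F) + L(F)`: `ψ` an
arbitrary function of two variables, `Q` any quadratic form, `L` any linear form, `Tᵢ` linear maps
into `ℝ^{dᵢ}`, `χᵢ` an arbitrary function if `dᵢ = 1` and a radial function with an arbitrary profile
and an arbitrary centre otherwise; the variables `F v, T₁ F, ..., T_N F` are independent.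

Proof.  Fix `i` and let `c` be the largest number for which `χᵢ - (c/2) |y|²` is convex.  For `t > c`
the function `χᵢ - (t/2) |y|²` is not convex: somewhere its second differences are negative at all
small scales, in one direction and hence (at other points) in every direction.  By independence these
points can be combined with every matrix, so that replacing `χᵢ` by `(t/2) |y|²` keeps rank-one
convexity; `t → c`.  After all the replacements the function `ψ(F v) + ` (quadratic form) is rank-one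
convex, hence quasiconvex, and `W` is this function plus convex functions of the `Tᵢ F`.
-/

set_option autoImplicit false

namespace Pool.Agent.Results.MP_515557_an.ColumnPlusIndependentParts

/-- rank-one convexity -/
def RankOneConvex (W : Matrix (Fin 2) (Fin 2) ℝ → ℝ) : Prop :=
  ∀ F H : Matrix (Fin 2) (Fin 2) ℝ, H.rank = 1 → ∀ t : ℝ, 0 ≤ t → t ≤ 1 →
    W ((1 - t) • F + t • (F + H)) ≤ (1 - t) * W F + t * W (F + H)

/-- quasiconvexity (Morrey) -/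
def Quasiconvex (W : Matrix (Fin 2) (Fin 2) ℝ → ℝ) : Prop :=
  ∀ F₀ : Matrix (Fin 2) (Fin 2) ℝ, ∀ Ω : Set (Fin 2 → ℝ),
    IsOpen Ω → Bornology.IsBounded Ω →
    ∀ ϑ : (Fin 2 → ℝ) → (Fin 2 → ℝ), (∃ K, LipschitzWith K ϑ) →
      (∀ x, x ∉ Ω → ϑ x = 0) →
      W F₀ * (MeasureTheory.volume Ω).toReal ≤
        ∫ x in Ω, W (F₀ + LinearMap.toMatrix'
          ((fderiv ℝ ϑ x : (Fin 2 → ℝ) →L[ℝ] (Fin 2 → ℝ)) :
            (Fin 2 → ℝ) →ₗ[ℝ] (Fin 2 → ℝ)))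

/-- any function of one variable; or a radial function of any number of variables, with any profile
`k` and any centre `y₀` -/
def OneVariableOrRadial {d : ℕ} (χ : EuclideanSpace ℝ (Fin d) → ℝ) : Prop :=
  d = 1 ∨ ∃ (k : ℝ → ℝ) (y₀ : EuclideanSpace ℝ (Fin d)), ∀ y, χ y = k ‖y - y₀‖

/-- `ψ(F v) + ∑ᵢ χᵢ(Tᵢ F) + Q(F) + L(F)` -/
noncomputable def columnSum (ψ : (Fin 2 → ℝ) → ℝ) (v : Fin 2 → ℝ) {N : ℕ} (d : Fin N → ℕ)
    (T : ∀ i, Matrix (Fin 2) (Fin 2) ℝ →ₗ[ℝ] EuclideanSpace ℝ (Fin (d i)))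
    (χ : ∀ i, EuclideanSpace ℝ (Fin (d i)) → ℝ)
    (Q : QuadraticForm ℝ (Matrix (Fin 2) (Fin 2) ℝ)) (L : Matrix (Fin 2) (Fin 2) ℝ →ₗ[ℝ] ℝ)
    (F : Matrix (Fin 2) (Fin 2) ℝ) : ℝ :=
  ψ (F.mulVec v) + ∑ i, χ i (T i F) + Q F + L F

/-- `ψ(Fᵀ v) + ∑ᵢ χᵢ(Tᵢ F) + Q(F) + L(F)` -/
noncomputable def rowSum (ψ : (Fin 2 → ℝ) → ℝ) (v : Fin 2 → ℝ) {N : ℕ} (d : Fin N → ℕ)
    (T : ∀ i, Matrix (Fin 2) (Fin 2) ℝ →ₗ[ℝ] EuclideanSpace ℝ (Fin (d i)))
    (χ : ∀ i, EuclideanSpace ℝ (Fin (d i)) → ℝ)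
    (Q : QuadraticForm ℝ (Matrix (Fin 2) (Fin 2) ℝ)) (L : Matrix (Fin 2) (Fin 2) ℝ →ₗ[ℝ] ℝ)
    (F : Matrix (Fin 2) (Fin 2) ℝ) : ℝ :=
  ψ (F.transpose.mulVec v) + ∑ i, χ i (T i F) + Q F + L F

/-- `T₁ F, ..., T_N F` take arbitrary values on the matrices with `F v = 0` -/
def IndependentOfColumn (v : Fin 2 → ℝ) {N : ℕ} (d : Fin N → ℕ)
    (T : ∀ i, Matrix (Fin 2) (Fin 2) ℝ →ₗ[ℝ] EuclideanSpace ℝ (Fin (d i))) : Prop :=
  ∀ y : ∀ i, EuclideanSpace ℝ (Fin (d i)), ∃ Z : Matrix (Fin 2) (Fin 2) ℝ,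
    Z.mulVec v = 0 ∧ ∀ i, T i Z = y i

/-- `T₁ F, ..., T_N F` take arbitrary values on the matrices with `Fᵀ v = 0` -/
def IndependentOfRow (v : Fin 2 → ℝ) {N : ℕ} (d : Fin N → ℕ)
    (T : ∀ i, Matrix (Fin 2) (Fin 2) ℝ →ₗ[ℝ] EuclideanSpace ℝ (Fin (d i))) : Prop :=
  ∀ y : ∀ i, EuclideanSpace ℝ (Fin (d i)), ∃ Z : Matrix (Fin 2) (Fin 2) ℝ,
    Z.transpose.mulVec v = 0 ∧ ∀ i, T i Z = y i

/-- Rank-one convexity implies quasiconvexity for the sums of an arbitrary function of one column (or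
row), functions of independent variables which are one-dimensional or radial, and a quadratic
polynomial. -/
theorem result (ψ : (Fin 2 → ℝ) → ℝ) (v : Fin 2 → ℝ) {N : ℕ} (d : Fin N → ℕ)
    (T : ∀ i, Matrix (Fin 2) (Fin 2) ℝ →ₗ[ℝ] EuclideanSpace ℝ (Fin (d i)))
    (χ : ∀ i, EuclideanSpace ℝ (Fin (d i)) → ℝ) (hχ : ∀ i, OneVariableOrRadial (χ i))
    (Q : QuadraticForm ℝ (Matrix (Fin 2) (Fin 2) ℝ)) (L : Matrix (Fin 2) (Fin 2) ℝ →ₗ[ℝ] ℝ) :
    (IndependentOfColumn v d T → RankOneConvex (columnSum ψ v d T χ Q L) →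
        Quasiconvex (columnSum ψ v d T χ Q L)) ∧
      (IndependentOfRow v d T → RankOneConvex (rowSum ψ v d T χ Q L) →
        Quasiconvex (rowSum ψ v d T χ Q L)) := by
  have hSD : ∀ i, Pool.Agent.H73.MC.SD (χ i) := by
    intro i
    rcases hχ i with h | ⟨k, y₀, h⟩
    · exact Pool.Agent.H73.MC.sd_one h _
    · have e : χ i = fun y => k ‖y - y₀‖ := funext h
      rw [e]
      exact Pool.Agent.H73.MC.sd_radial k y₀
  refine ⟨fun hT h => Pool.Agent.H73.MC.mixed_col ψ v T χ hSD Q L hT h, fun hT h => ?_⟩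
  have e : rowSum ψ v d T χ Q L
      = fun F => ψ (Matrix.vecMul v F) + ∑ i, χ i (T i F) + Q F + L F := by
    funext F
    rw [rowSum, Matrix.mulVec_transpose]
  rw [e] at h ⊢
  refine Pool.Agent.H73.MC.mixed_row ψ v T χ hSD Q L (fun y => ?_) h
  obtain ⟨Z, h1, h2⟩ := hT y
  rw [Matrix.mulVec_transpose] at h1
  exact ⟨Z, h1, h2⟩

end Pool.Agent.Results.MP_515557_an.ColumnPlusIndependentParts
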