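import Pool.Agent.H64.TH.Lim

/-!
# Rank-one convex functions of degree two on the real `2 × 2` matrices, without any symmetry

Let `W` be rank-one convex.
(1) If `W` is superquadratic at `F₀`, i.e. for some linear `l` the function
`w(H) = W(F₀ + H) - W(F₀) - l(H)` satisfies `w(rH) ≤ r² w(H)` for `0 < r < 1` (for instance if `w` is
positively homogeneous of degree two), then `w ≥ κ det` for a constant `κ`, and Morrey's inequality
holds at `F₀`.
(2) If the blow-ups `(W(F₀ + sH) - W(F₀) - s l(H)) / s²` converge for `s → 0+` (to any, not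
necessarily quadratic, function), then Morrey's inequality holds at `F₀` for test maps with small
gradients up to `ε ∫ |Dϑ|²`.
(3) If `W(tF) / t²` converges for `t → ∞`, then `W(F) ≥ κ det F - ε |F|² - C(ε)`, so that the
integral of `W(F₀ + Dϑ)` is bounded below by `-ε ∫ |F₀ + Dϑ|² - C` for every `ε > 0`.

Proof of (1), `F₀ = 0`, `l = 0`, `W(0) = 0`: the one-sided derivatives of `W` at `0` along a line of
singular matrices are at most `0`, so that by convexity `W ≥ 0` on the singular matrices.  If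
`det A > 0 > det B` there is exactly one `t > 0` with `det(tA - B) = 0`.  For `t ≤ 1` the segment
from `tA` to `B` has a rank-one direction and contains a singular matrix, and convexity and
`W(tA) ≤ t² W(A)` give `|det B| W(A) + det A W(B) ≥ 0`; for `t ≥ 1` use the segment from `A` to
`B/t`.  So `W/det` is on the matrices of positive determinant at least as large as on those of
negative determinant.  For (2) and (3) pass to the limit function, which is rank-one convex and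
homogeneous of degree two; the convergence is locally uniform.
-/

set_option autoImplicit false

namespace Pool.Agent.Results.MP_515557_an.DegreeTwoWithoutSymmetry

open MeasureTheory Matrix Filter Topology

/-- real `2 × 2` matrices -/
abbrev M := Matrix (Fin 2) (Fin 2) ℝ

/-- the matrix `F₀ + Dϑ(x)` -/
noncomputable def Grad (F₀ : M) (ϑ : (Fin 2 → ℝ) → (Fin 2 → ℝ)) (x : Fin 2 → ℝ) : M :=
  F₀ + LinearMap.toMatrix'
    ((fderiv ℝ ϑ x : (Fin 2 → ℝ) →L[ℝ] (Fin 2 → ℝ)) : (Fin 2 → ℝ) →ₗ[ℝ] (Fin 2 → ℝ))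

/-- rank-one convexity -/
def RankOneConvex (W : M → ℝ) : Prop :=
  ∀ F H : M, H.rank = 1 → ∀ t : ℝ, 0 ≤ t → t ≤ 1 →
    W ((1 - t) • F + t • (F + H)) ≤ (1 - t) * W F + t * W (F + H)

/-- the square `|F|²` of the Euclidean norm -/
def sqNorm (F : M) : ℝ := F 0 0 ^ 2 + F 0 1 ^ 2 + F 1 0 ^ 2 + F 1 1 ^ 2

/-- the test maps of the bounded open set `Ω`: the Lipschitz maps which vanish off `Ω` -/
structure Test (Ω : Set (Fin 2 → ℝ)) (ϑ : (Fin 2 → ℝ) → (Fin 2 → ℝ)) : Prop where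
  isOpen : IsOpen Ω
  bounded : Bornology.IsBounded Ω
  lipschitz : ∃ K, LipschitzWith K ϑ
  zero : ∀ x, x ∉ Ω → ϑ x = 0

/-- **Rank-one convex functions of degree two on the `2 × 2` matrices, without symmetry.** -/
theorem result (W : M → ℝ) (hW : RankOneConvex W) :
    -- (1) superquadratic at a point
    (∀ (F₀ : M) (l : M →ₗ[ℝ] ℝ),
      (∀ H : M, ∀ r : ℝ, 0 < r → r < 1 →
        W (F₀ + r • H) - W F₀ - r * l H ≤ r ^ 2 * (W (F₀ + H) - W F₀ - l H)) →
      (∃ κ : ℝ, ∀ H : M, W F₀ + l H + κ * H.det ≤ W (F₀ + H)) ∧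
      ∀ Ω ϑ, Test Ω ϑ → W F₀ * (volume Ω).toReal ≤ ∫ x in Ω, W (Grad F₀ ϑ x)) ∧
    -- (2) blow-up at a point
    (∀ (F₀ : M) (l : M →ₗ[ℝ] ℝ) (W₂ : M → ℝ),
      (∀ H : M, Tendsto (fun s : ℝ => (W (F₀ + s • H) - W F₀ - s * l H) / s ^ 2) (𝓝[>] 0)
        (𝓝 (W₂ H))) →
      ∃ κ : ℝ, (∀ H : M, κ * H.det ≤ W₂ H) ∧ ∀ ε : ℝ, 0 < ε → ∃ δ : ℝ, 0 < δ ∧
        (∀ H : M, sqNorm H ≤ δ ^ 2 →
          W F₀ + l H + κ * H.det - ε * sqNorm H ≤ W (F₀ + H)) ∧
        ∀ Ω ϑ, Test Ω ϑ → (∀ᵐ x ∂(volume.restrict Ω), sqNorm (Grad 0 ϑ x) ≤ δ ^ 2) →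
          W F₀ * (volume Ω).toReal - ε * ∫ x in Ω, sqNorm (Grad 0 ϑ x) ≤
            ∫ x in Ω, W (Grad F₀ ϑ x)) ∧
    -- (3) behaviour at infinity
    (∀ W₂ : M → ℝ,
      (∀ F : M, Tendsto (fun t : ℝ => W (t • F) / t ^ 2) atTop (𝓝 (W₂ F))) →
      ∃ κ : ℝ, (∀ F : M, κ * F.det ≤ W₂ F) ∧ ∀ ε : ℝ, 0 < ε → ∃ C : ℝ,
        (∀ F : M, κ * F.det - ε * sqNorm F - C ≤ W F) ∧
        ∀ F₀ Ω ϑ, Test Ω ϑ →
          (κ * F₀.det - C) * (volume Ω).toReal - ε * ∫ x in Ω, sqNorm (Grad F₀ ϑ x) ≤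
            ∫ x in Ω, W (Grad F₀ ϑ x)) := by
  have hc : Continuous W := Pool.Agent.Helper188.Morrey.RankOneConvex.continuous hW
  refine ⟨fun F₀ l h => ?_, fun F₀ l W₂ h => ?_, fun W₂ h => ?_⟩
  · obtain ⟨κ, hκ⟩ := Pool.Agent.H64.TH.super_bound hW F₀ l h
    refine ⟨⟨κ, hκ⟩, fun Ω ϑ hT => ?_⟩
    obtain ⟨K, hK⟩ := hT.lipschitz
    have h1 := Pool.Agent.H64.TH.morrey_err hc F₀ l κ (fun _ => 0) continuous_const hK hT.isOpen
      hT.bounded hT.zero (Eventually.of_forall fun x => by rw [sub_zero]; exact hκ _)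
    simp only [integral_zero, sub_zero] at h1
    exact h1
  · obtain ⟨κ, h2, h3⟩ := Pool.Agent.H64.TH.local_bound hW F₀ l h
    refine ⟨κ, h2, fun ε hε => ?_⟩
    obtain ⟨δ, hδ, h4⟩ := h3 ε hε
    refine ⟨δ, hδ, h4, fun Ω ϑ hT hs => ?_⟩
    obtain ⟨K, hK⟩ := hT.lipschitz
    have e : ∀ x, Grad 0 ϑ x = Pool.Agent.Helper188.Morrey.grad ϑ x := fun x => zero_add _
    simp only [e] at hs ⊢
    have h1 := Pool.Agent.H64.TH.morrey_err hc F₀ l κ (fun F => ε * Pool.Agent.H64.TH.N F)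
      (Pool.Agent.H64.TH.N_continuous.const_mul ε) hK hT.isOpen hT.bounded hT.zero (by
        filter_upwards [hs] with x hx
        exact h4 _ hx)
    rw [integral_const_mul] at h1
    exact h1
  · obtain ⟨κ, h2, h3⟩ := Pool.Agent.H64.TH.infinity_bound hW h
    refine ⟨κ, h2, fun ε hε => ?_⟩
    obtain ⟨C, h4⟩ := h3 ε hε
    refine ⟨C, h4, fun F₀ Ω ϑ hT => ?_⟩
    obtain ⟨K, hK⟩ := hT.lipschitz
    have h1 := Pool.Agent.H64.TH.integral_bound hc F₀ 0 κ (-C)
      (fun F => ε * Pool.Agent.H64.TH.N (F₀ + F))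
      ((Pool.Agent.H64.TH.N_continuous.comp (continuous_const.add continuous_id)).const_mul ε)
      hK hT.isOpen hT.bounded hT.zero (Eventually.of_forall fun x => by
        have := h4 (F₀ + Pool.Agent.Helper188.Morrey.grad ϑ x)
        simp only [LinearMap.zero_apply]
        show _ - ε * Pool.Agent.H64.TH.N _ ≤ _
        linarith)
    rw [integral_const_mul] at h1
    have e : -C + (0 : M →ₗ[ℝ] ℝ) F₀ + κ * F₀.det = κ * F₀.det - C := by
      simp only [LinearMap.zero_apply]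
      ring
    rw [e] at h1
    exact h1

end Pool.Agent.Results.MP_515557_an.DegreeTwoWithoutSymmetry
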